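import Pool.Agent.Y748.SR.Stm

/-!
# Project SR: the special weights
-/

set_option autoImplicit false

namespace Pool.Agent.Y665.SR

open Pool.Agent.Y748.SR Polynomial Finset

/-- the sine kernel at a lattice point -/
lemma sn_lat {x s : ℝ} (h : NI x s) (n : ℤ) :
    sn (x - (s + n)) = (-1) ^ n * Real.sin (Real.pi * (x - s)) / (Real.pi * (x - (s + n))) := by
  have hne : x - (s + n) ≠ 0 := by
    intro h0
    apply h n
    linarith
  have hpi := Real.pi_pos
  unfold sn
  rw [Real.sinc_of_ne_zero (by positivity)]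
  congr 1
  have e : Real.pi * (x - (s + n)) = Real.pi * (x - s) - n * Real.pi := by ring
  rw [e, Real.sin_sub_int_mul_pi]

lemma sin_ne {x s : ℝ} (h : NI x s) : Real.sin (Real.pi * (x - s)) ≠ 0 := by
  intro h0
  rw [Real.sin_eq_zero_iff] at h0
  obtain ⟨n, hn⟩ := h0
  apply h n
  have hpi := Real.pi_pos
  have : Real.pi * (x - s - n) = 0 := by linarith
  rcases mul_eq_zero.1 this with h1 | h1
  · linarith
  · linarith

lemma sq_one (n : ℤ) : ((-1 : ℝ) ^ n) * (-1) ^ n = 1 := by
  rw [← mul_zpow]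
  norm_num

lemma sn_mul {x x' s : ℝ} (h : NI x s) (h' : NI x' s) (n : ℤ) : sn (x - (s + n)) * sn (x' - (s + n)) =
    Real.sin (Real.pi * (x - s)) * Real.sin (Real.pi * (x' - s)) / Real.pi ^ 2 *
      (1 / ((x - (s + n)) * (x' - (s + n)))) := by
  rw [sn_lat h, sn_lat h']
  have hne : x - (s + n) ≠ 0 := fun h0 => h n (by linarith)
  have hne' : x' - (s + n) ≠ 0 := fun h0 => h' n (by linarith)
  have hpi := Real.pi_pos
  have h1 := sq_one n
  field_simp
  linear_combination (Real.sin (Real.pi * (x - s)) * Real.sin (Real.pi * (x' - s))) * h1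

theorem t_LAG : S_LAG := by
  intro A s T hc hne hNI
  have hpi := Real.pi_pos
  obtain ⟨t, htd⟩ : ∃ t : ℤ → ℝ, ∀ n, t n = s + n := ⟨_, fun _ => rfl⟩
  have ht : Function.Injective t := by
    intro a b hab
    rw [htd, htd] at hab
    exact_mod_cast add_left_cancel hab
  obtain ⟨P, hP⟩ : ∃ P : ℝ[X], P = Lagrange.nodal T t - Lagrange.nodal A (id : ℝ → ℝ) := ⟨_, rfl⟩
  have hdeg : P.degree < T.card := by
    have h1 : (Lagrange.nodal T t).degree = (Lagrange.nodal A (id : ℝ → ℝ)).degree := by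
      rw [Lagrange.degree_nodal, Lagrange.degree_nodal, hc]
    have h2 := Polynomial.degree_sub_lt h1 Lagrange.nodal_ne_zero (by
      rw [(Lagrange.nodal_monic (s := T) (v := t)).leadingCoeff,
        (Lagrange.nodal_monic (s := A) (v := (id : ℝ → ℝ))).leadingCoeff])
    rw [Lagrange.degree_nodal] at h2
    rw [hP]
    exact h2
  have hI := Lagrange.eq_interpolate (s := T) (v := t) ht.injOn hdeg
  obtain ⟨y, hy⟩ : ∃ y : ℤ → ℝ, ∀ n, y n = P.eval (t n) * ∏ m ∈ T.erase n, (t n - t m)⁻¹ := ⟨_, fun _ => rfl⟩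
  have key : ∑ n ∈ T, C (y n) * ∏ m ∈ T.erase n, (X - C (t m)) = P := by
    conv_rhs => rw [hI]
    rw [Lagrange.interpolate_apply]
    refine sum_congr rfl fun n _ => ?_
    rw [Lagrange.basis, hy, C_mul, mul_assoc]
    congr 1
    rw [map_prod, ← prod_mul_distrib]
    rfl
  -- evaluation
  have hN : ∀ x : ℝ, NI x s → ∀ n, x - t n ≠ 0 := fun x hx n h0 => hx n (by rw [htd] at h0; linarith)
  have hev : ∀ x : ℝ, ∑ n ∈ T, y n * ∏ m ∈ T.erase n, (x - t m) = ∏ m ∈ T, (x - t m) - ∏ z ∈ A, (x - z) := by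
    intro x
    have := congrArg (Polynomial.eval x) key
    rw [Polynomial.eval_finset_sum, hP, Polynomial.eval_sub, Lagrange.eval_nodal, Lagrange.eval_nodal] at this
    rw [← (show _ = ∏ m ∈ T, (x - t m) - ∏ z ∈ A, (x - z) from this)]
    refine sum_congr rfl fun n _ => ?_
    rw [Polynomial.eval_mul, Polynomial.eval_C, Polynomial.eval_prod]
    simp
  have hy0 : ∀ n ∈ T, y n ≠ 0 := by
    intro n hn
    rw [hy]
    refine mul_ne_zero ?_ (prod_ne_zero_iff.2 fun m hm => inv_ne_zero ?_)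
    · rw [hP, Polynomial.eval_sub, Lagrange.eval_nodal, Lagrange.eval_nodal, prod_eq_zero (f := fun i => t n - t i) hn (sub_self _), zero_sub,
        neg_ne_zero, prod_ne_zero_iff]
      intro x hx h0
      have := hN x (hNI x hx) n
      apply this
      rw [id] at h0
      linarith
    · rw [sub_ne_zero]
      exact fun h => (ne_of_mem_erase hm) (ht h).symm
  have hone : ∀ x ∈ A, ∑ n ∈ T, y n * (1 / (x - t n)) = 1 := by
    intro x hx
    have h1 := hev x
    rw [prod_eq_zero hx (sub_self x), sub_zero] at h1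
    have h2 : ∏ m ∈ T, (x - t m) ≠ 0 := prod_ne_zero_iff.2 fun m _ => hN x (hNI x hx) m
    have h3 : (∏ m ∈ T, (x - t m)) * ∑ n ∈ T, y n * (1 / (x - t n)) = ∏ m ∈ T, (x - t m) := by
      conv_rhs => rw [← h1]
      rw [mul_sum]
      refine sum_congr rfl fun n hn => ?_
      rw [← mul_prod_erase T (fun m => x - t m) hn]
      have := hN x (hNI x hx) n
      field_simp
    have h4 : (∏ m ∈ T, (x - t m)) * (∑ n ∈ T, y n * (1 / (x - t n)) - 1) = 0 := by rw [mul_sub, h3]; ring
    rcases mul_eq_zero.1 h4 with h5 | h5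
    · exact absurd h5 h2
    · linarith
  refine ⟨y, hy0, ?_, ?_⟩
  · intro x hx x' hx' hxx'
    have e : ∀ n ∈ T, y n * (sn (x - (s + n)) * sn (x' - (s + n))) =
        Real.sin (Real.pi * (x - s)) * Real.sin (Real.pi * (x' - s)) / Real.pi ^ 2 * (1 / (x - x')) *
          (y n * (1 / (x' - t n)) - y n * (1 / (x - t n))) := by
      intro n _
      rw [sn_mul (hNI x hx) (hNI x' hx'), ← htd]
      have h1 := hN x (hNI x hx) n
      have h2 := hN x' (hNI x' hx') n
      have h3 : x - x' ≠ 0 := sub_ne_zero.2 hxx'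
      field_simp
      ring
    rw [sum_congr rfl e, ← mul_sum, sum_sub_distrib, hone x hx, hone x' hx', sub_self, mul_zero]
  · intro x hx
    have h2 : ∏ m ∈ T, (x - t m) ≠ 0 := prod_ne_zero_iff.2 fun m _ => hN x (hNI x hx) m
    have hQ : ∑ n ∈ T, C (y n * (1 / (x - t n))) * ∏ m ∈ T.erase n, (X - C (t m)) =
        ∏ z ∈ A.erase x, (X - C z) := by
      have h3 : (X - C x) * ∑ n ∈ T, C (y n * (1 / (x - t n))) * ∏ m ∈ T.erase n, (X - C (t m)) =
          (X - C x) * ∏ z ∈ A.erase x, (X - C z) := by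
        rw [mul_prod_erase A (fun z => (X - C z : ℝ[X])) hx]
        have h4 : ∀ n ∈ T, (X - C x) * (C (y n * (1 / (x - t n))) * ∏ m ∈ T.erase n, (X - C (t m))) =
            C (y n * (1 / (x - t n))) * ∏ m ∈ T, (X - C (t m)) - C (y n) * ∏ m ∈ T.erase n, (X - C (t m)) := by
          intro n hn
          rw [← mul_prod_erase T (fun m => (X - C (t m) : ℝ[X])) hn]
          have h5 : (C (y n) : ℝ[X]) = C (y n * (1 / (x - t n))) * (C x - C (t n)) := by
            rw [← C_sub, ← C_mul]
            congr 1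
            have := hN x (hNI x hx) n
            field_simp
          rw [h5]
          ring
        rw [mul_sum, sum_congr rfl h4, sum_sub_distrib, ← sum_mul, ← map_sum, hone x hx, key, hP]
        simp only [Lagrange.nodal, id, map_one, one_mul]
        ring
      exact mul_left_cancel₀ (X_sub_C_ne_zero x) h3
    have h6 := congrArg (Polynomial.eval x) hQ
    rw [Polynomial.eval_finset_sum, Polynomial.eval_prod] at h6
    have h7 : ∏ z ∈ A.erase x, (X - C z : ℝ[X]).eval x ≠ 0 := by
      refine prod_ne_zero_iff.2 fun z hz => ?_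
      simp only [eval_sub, eval_X, eval_C]
      exact sub_ne_zero.2 (ne_of_mem_erase hz).symm
    rw [← h6] at h7
    intro h0
    apply h7
    have e : ∀ n ∈ T, (C (y n * (1 / (x - t n))) * ∏ m ∈ T.erase n, (X - C (t m)) : ℝ[X]).eval x =
        (∏ m ∈ T, (x - t m)) * (Real.pi ^ 2 / Real.sin (Real.pi * (x - s)) ^ 2) *
          (y n * sn (x - (s + n)) ^ 2) := by
      intro n hn
      rw [pow_two (sn _), sn_mul (hNI x hx) (hNI x hx), ← htd, Polynomial.eval_mul, Polynomial.eval_C,
        Polynomial.eval_prod, ← mul_prod_erase T (fun m => x - t m) hn]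
      simp only [eval_sub, eval_X, eval_C]
      have h1 := hN x (hNI x hx) n
      have h2 := sin_ne (hNI x hx)
      field_simp
    rw [sum_congr rfl e, ← mul_sum, h0, mul_zero]

end Pool.Agent.Y665.SR
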